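import Pool.Agent.H80.G2.Targets

/-!
# MP_323167_an, target AVG: averages over the unitary group converge to the trace
-/

set_option autoImplicit false

open Pool.Agent.H80.G2
open scoped InnerProductSpace Topology
open Filter Finset

namespace Pool.Agent.H42.G2

variable {H : Type} [NormedAddCommGroup H] [InnerProductSpace ℂ H] [CompleteSpace H]
  {ξ : ℕ → H} {M : VonNeumannAlgebra H}

theorem mc_conj {x u T : H →L[ℂ] H} (hu : Uni M u) (hT : Mc (Orb M x) T) :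
    Mc (Orb M x) (u * T * star u) := by
  induction hT with
  | base y hy =>
    obtain ⟨v, hv, rfl⟩ := hy
    refine Mc.base _ ⟨u * v, hu.mul hv, ?_⟩
    rw [star_mul]
    simp only [mul_assoc]
  | mid a b _ _ ha hb =>
    have h1 : u * ((1 / 2 : ℂ) • (a + b)) * star u =
        (1 / 2 : ℂ) • (u * a * star u + u * b * star u) := by
      rw [mul_smul_comm, smul_mul_assoc, mul_add, add_mul]
    rw [h1]
    exact Mc.mid _ _ ha hb

theorem pf_AVG (hCMP : T_CMP) (hUNS : T_UNS) : T_AVG := by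
  intro H _ _ _ M ξ hT hF x hx
  have hOM : ∀ y ∈ Orb M x, y ∈ M := by
    rintro y ⟨u, hu, rfl⟩
    exact mul_mem (mul_mem hu.1 hx) hu.star.1
  have hxO : Mc (Orb M x) x := Mc.base x ⟨1, uni_one M, by rw [star_one, one_mul, mul_one]⟩
  set S : Set ℝ := {r | ∃ T, Mc (Orb M x) T ∧ r = n2 ξ T ^ 2} with hS
  have hS1 : S.Nonempty := ⟨_, x, hxO, rfl⟩
  have hS2 : BddBelow S := ⟨0, by
    rintro r ⟨T, _, rfl⟩
    exact sq_nonneg _⟩
  have hd : ∀ T, Mc (Orb M x) T → sInf S ≤ n2 ξ T ^ 2 := fun T h1 => csInf_le hS2 ⟨T, h1, rfl⟩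
  have hex : ∀ k : ℕ, ∃ T, Mc (Orb M x) T ∧ n2 ξ T ^ 2 < sInf S + 1 / ((k : ℝ) + 1) := by
    intro k
    have h1 : sInf S < sInf S + 1 / ((k : ℝ) + 1) := by
      have : (0 : ℝ) < 1 / ((k : ℝ) + 1) := by positivity
      linarith
    obtain ⟨r, ⟨T, hT1, rfl⟩, hr⟩ := exists_lt_of_csInf_lt hS1 h1
    exact ⟨T, hT1, hr⟩
  choose T hT1 hT2 using hex
  have key : ∀ A B, Mc (Orb M x) A → Mc (Orb M x) B →
      n2 ξ (A - B) ^ 2 ≤ 2 * (n2 ξ A ^ 2 - sInf S) + 2 * (n2 ξ B ^ 2 - sInf S) := by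
    intro A B hA hB
    have h1 := n2_par hT.sum A B
    have h2 := hd _ (Mc.mid A B hA hB)
    rw [n2_smul hT.sum, mul_pow] at h2
    have h3 : ‖(1 / 2 : ℂ)‖ = 1 / 2 := by norm_num
    rw [h3] at h2
    linarith
  have hTM : ∀ k, T k ∈ M := fun k => Mc.mem hOM (hT1 k)
  have hTn : ∀ k, ‖T k‖ ≤ ‖x‖ := by
    intro k
    have h1 := Mc.norm_le (V := 0) (r := ‖x‖) (O := Orb M x) (by
      rintro y ⟨u, hu, rfl⟩
      rw [sub_zero]
      exact norm_conj_le hu x) (hT1 k)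
    rwa [sub_zero] at h1
  have hCau : ∀ ε : ℝ, 0 < ε → ∃ K, ∀ j, K ≤ j → ∀ k, K ≤ k → n2 ξ (T j - T k) < ε := by
    intro ε hε
    obtain ⟨K, hK⟩ := exists_nat_gt (4 / ε ^ 2)
    have hε2 : 0 < ε ^ 2 := by positivity
    have hb : ∀ j : ℕ, K ≤ j → n2 ξ (T j) ^ 2 - sInf S < ε ^ 2 / 4 := by
      intro j hj
      have h1 := hT2 j
      have hK' : (K : ℝ) ≤ j := by exact_mod_cast hj
      have h2 : 1 / ((j : ℝ) + 1) ≤ ε ^ 2 / 4 := by
        rw [div_le_div_iff₀ (by positivity) (by norm_num)]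
        rw [div_lt_iff₀ hε2] at hK
        nlinarith
      linarith
    refine ⟨K, fun j hj k hk => ?_⟩
    have h1 := key (T j) (T k) (hT1 j) (hT1 k)
    have h2 := hb j hj
    have h3 := hb k hk
    have h4 : n2 ξ (T j - T k) ^ 2 < ε ^ 2 := by linarith
    exact lt_of_pow_lt_pow_left₀ 2 hε.le h4
  obtain ⟨z, hzM, -, hz⟩ := hCMP H M ξ hT T ‖x‖ hTM hTn hCau
  have hk0 : Tendsto (fun k : ℕ => 2 / Real.sqrt ((k : ℝ) + 1)) atTop (𝓝 0) := by
    refine Tendsto.div_atTop tendsto_const_nhds ?_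
    exact Real.tendsto_sqrt_atTop.comp
      (tendsto_atTop_add_const_right _ _ tendsto_natCast_atTop_atTop)
  have hu0 : ∀ u, Uni M u → u * z = z * u := by
    intro u hu
    have h1 : ∀ k, n2 ξ (u * T k * star u - T k) ≤ 2 / Real.sqrt ((k : ℝ) + 1) := by
      intro k
      have h2 := key _ _ (mc_conj hu (hT1 k)) (hT1 k)
      rw [n2_conj hT hu (hTM k)] at h2
      have h3 := hT2 k
      have h4 : n2 ξ (u * T k * star u - T k) ^ 2 ≤ (2 / Real.sqrt ((k : ℝ) + 1)) ^ 2 := by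
        rw [div_pow, Real.sq_sqrt (by positivity)]
        have h5 : (2 : ℝ) ^ 2 / ((k : ℝ) + 1) = 4 * (1 / ((k : ℝ) + 1)) := by ring
        rw [h5]
        linarith
      exact (sq_le_sq₀ (n2_nonneg _ _) (by positivity)).1 h4
    have h2 : ∀ k, n2 ξ (u * z - z * u) ≤
        n2 ξ (T k - z) + 2 / Real.sqrt ((k : ℝ) + 1) + n2 ξ (T k - z) := by
      intro k
      rw [← n2_comm_uni hT hu hzM]
      have h3 := n2_sub_le hT.sum (u * z * star u) (u * T k * star u) z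
      have h4 := n2_sub_le hT.sum (u * T k * star u) (T k) z
      have h5 : n2 ξ (u * z * star u - u * T k * star u) = n2 ξ (T k - z) := by
        have h6 : u * z * star u - u * T k * star u = u * (z - T k) * star u := by
          rw [mul_sub, sub_mul]
        rw [h6, n2_conj hT hu (sub_mem hzM (hTM k)), n2_sub_comm]
      have h7 := h1 k
      linarith
    have h3 : Tendsto (fun k : ℕ => n2 ξ (T k - z) + 2 / Real.sqrt ((k : ℝ) + 1) +
        n2 ξ (T k - z)) atTop (𝓝 0) := by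
      have := (hz.add hk0).add hz
      simpa using this
    have h4 : n2 ξ (u * z - z * u) ≤ 0 := ge_of_tendsto' h3 h2
    have h5 := eq_zero_of_n2 hT (sub_mem (mul_mem hu.1 hzM) (mul_mem hzM hu.1))
      (le_antisymm h4 (n2_nonneg _ _))
    exact sub_eq_zero.1 h5
  have hcen : ∀ y ∈ M, z * y = y * z := by
    intro y hy
    obtain ⟨c, u, hu, -, rfl⟩ := hUNS H M y hy
    rw [mul_sum, sum_mul]
    refine sum_congr rfl fun i _ => ?_
    rw [mul_smul_comm, smul_mul_assoc, hu0 _ (hu i)]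
  obtain ⟨c, hc⟩ := hF z hzM hcen
  have htr : tr ξ z = tr ξ x := by
    have hTx : ∀ k, tr ξ (T k) = tr ξ x := fun k => Mc.tr_eq hT.sum (by
      rintro y ⟨u, hu, rfl⟩
      exact tr_conj hT hu hx) (hT1 k)
    have h1 : ∀ k, ‖tr ξ x - tr ξ z‖ ≤ n2 ξ (T k - z) := by
      intro k
      rw [← hTx k, ← tr_sub hT.sum]
      exact norm_tr_le hT.one _
    have h2 : ‖tr ξ x - tr ξ z‖ ≤ 0 := ge_of_tendsto' hz h1
    exact (sub_eq_zero.1 (norm_le_zero_iff.1 h2)).symm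
  have hcx : c = tr ξ x := by
    rw [← htr, hc, tr_smul, tr_one' hT.one, mul_one]
  refine ⟨T, hT1, ?_⟩
  rw [← hcx, ← hc]
  exact hz

end Pool.Agent.H42.G2
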