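import Pool.Agent.H80.G2.Targets

/-!
# MP_323167_an, target STR: bounded sequences converging in the 2-norm converge strongly
-/

set_option autoImplicit false

open Pool.Agent.H80.G2
open scoped InnerProductSpace Topology
open Filter Finset

namespace Pool.Agent.H42.G2

theorem apply_le_n2 {H : Type} [NormedAddCommGroup H] [InnerProductSpace ℂ H] [CompleteSpace H]
    {ξ : ℕ → H} (h : Summable fun n => ‖ξ n‖ ^ 2) (y : H →L[ℂ] H) (n : ℕ) :
    ‖y (ξ n)‖ ≤ n2 ξ y := by
  rw [← norm_emb h]
  have h1 := lp.norm_apply_le_norm (p := 2) (by norm_num) (emb h y) n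
  rwa [emb_apply] at h1

theorem pf_STR (hDEN : T_DEN) : T_STR := by
  intro H _ _ _ M ξ hT x C z hxM hxC hz hlim ζ
  have hB : ∀ k, ‖x k - z‖ ≤ C + ‖z‖ := fun k =>
    (norm_sub_le _ _).trans (by have := hxC k; linarith)
  have hB0 : 0 ≤ C + ‖z‖ := (norm_nonneg _).trans (hB 0)
  have h1 : ∀ n, Tendsto (fun k => (x k - z) (ξ n)) atTop (𝓝 0) := by
    intro n
    exact squeeze_zero_norm (fun k => apply_le_n2 hT.sum (x k - z) n) hlim
  have h2 : ∀ η ∈ Submodule.span ℂ {η : H | ∃ y : H →L[ℂ] H, (∀ z ∈ M, z * y = y * z) ∧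
      ∃ n, η = y (ξ n)}, Tendsto (fun k => (x k - z) η) atTop (𝓝 0) := by
    intro η hη
    induction hη using Submodule.span_induction with
    | mem η h =>
      obtain ⟨y, hy, n, rfl⟩ := h
      have h3 : (fun k => (x k - z) (y (ξ n))) = fun k => y ((x k - z) (ξ n)) := by
        funext k
        have h4 := hy (x k - z) (sub_mem (hxM k) hz)
        exact congrArg (fun f : H →L[ℂ] H => f (ξ n)) h4
      rw [h3]
      have h5 := (y.continuous.tendsto 0).comp (h1 n)
      rw [map_zero] at h5
      exact h5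
    | zero => simp
    | add a b _ _ ha hb =>
      have h3 := ha.add hb
      rw [add_zero] at h3
      refine h3.congr fun k => ?_
      rw [map_add]
    | smul c a _ ha =>
      have h3 := ha.const_smul c
      rw [smul_zero] at h3
      refine h3.congr fun k => ?_
      rw [map_smul]
  have h4 : Tendsto (fun k => (x k - z) ζ) atTop (𝓝 0) := by
    rw [Metric.tendsto_atTop]
    intro ε hε
    have h5 := hDEN H M ξ hT ζ
    rw [← SetLike.mem_coe, Submodule.topologicalClosure_coe, Metric.mem_closure_iff] at h5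
    obtain ⟨η, hη, hd⟩ := h5 (ε / (2 * (C + ‖z‖ + 1))) (by positivity)
    obtain ⟨K, hK⟩ := Metric.tendsto_atTop.1 (h2 η hη) (ε / 2) (half_pos hε)
    refine ⟨K, fun k hk => ?_⟩
    have h6 := hK k hk
    rw [dist_zero_right] at h6 ⊢
    have h7 : (x k - z) ζ = (x k - z) (ζ - η) + (x k - z) η := by
      rw [map_sub, sub_add_cancel]
    rw [h7]
    have h8 := norm_add_le ((x k - z) (ζ - η)) ((x k - z) η)
    have h9 : ‖(x k - z) (ζ - η)‖ ≤ ε / 2 := by
      refine ((x k - z).le_opNorm _).trans ?_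
      rw [dist_eq_norm] at hd
      have h10 : ‖x k - z‖ * ‖ζ - η‖ ≤ (C + ‖z‖ + 1) * (ε / (2 * (C + ‖z‖ + 1))) := by
        refine mul_le_mul ?_ hd.le (norm_nonneg _) (by linarith)
        have := hB k
        linarith
      refine h10.trans (le_of_eq ?_)
      field_simp
    linarith
  have h5 := h4.add_const (z ζ)
  rw [zero_add] at h5
  refine h5.congr fun k => ?_
  rw [sub_apply, sub_add_cancel]

end Pool.Agent.H42.G2
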